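import Mathlib
import Pool.Agent.H.MP_8d2225_pr.Disc

namespace Pool.Agent.Results.MP_7f396f_pr.NoCutoff

open Filter Topology Pool.Agent.H.MP_8d2225_pr

/-- simple random walk on the multigraph with an edge `{g, g z}` for each `g` and `z ∈ Z` -/
noncomputable def srw {G : Type} [Group G] [DecidableEq G] (Z : Finset G) : Matrix G G ℝ :=
  fun x y => (((Z.filter fun z => x * z = y).card + (Z.filter fun z => y * z = x).card : ℕ) : ℝ) /
    (2 * Z.card)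

lemma cnt {G : Type} [Group G] [DecidableEq G] (Z : Finset G) (x y : G) :
    (Z.filter fun z => x * z = y).card = if x⁻¹ * y ∈ Z then 1 else 0 := by
  have : (Z.filter fun z => x * z = y) = Z.filter fun z => z = x⁻¹ * y := by
    simp only [eq_inv_mul_iff_mul_eq]
  rw [this, Finset.filter_eq']
  split_ifs <;> simp

lemma srw_eq {Γ : Type} [AddCommGroup Γ] [Fintype Γ] [DecidableEq Γ] {L T : ℕ} {S : Finset Γ}
    (h : Good L T S) : srw (G := Multiplicative Γ) S = W 0 S := by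
  ext x y
  have h0 : (S.card : ℝ) ≠ 0 := by exact_mod_cast h.ne.card_pos.ne'
  have e1 : (x⁻¹ * y ∈ (show Finset (Multiplicative Γ) from S)) ↔ y.toAdd - x.toAdd ∈ S := by
    change -x.toAdd + y.toAdd ∈ S ↔ _
    rw [neg_add_eq_sub]
  have e2 : (y⁻¹ * x ∈ (show Finset (Multiplicative Γ) from S)) ↔ y.toAdd - x.toAdd ∈ S := by
    change -y.toAdd + x.toAdd ∈ S ↔ _
    rw [neg_add_eq_sub]
    exact ⟨fun a => by simpa using h.symm _ a, fun a => by simpa using h.symm _ a⟩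
  change _ = W 0 S x.toAdd y.toAdd
  simp only [srw, cnt, e1, e2, W]
  change _ / (2 * (S.card : ℝ)) = _
  by_cases a : y.toAdd - x.toAdd ∈ S
  · simp only [a, if_true, ite_self]; field_simp; norm_num
  · simp [a]

lemma one (L : ℕ) (hL : 2 ≤ L) : ∃ (G : Type) (_ : CommGroup G) (_ : Fintype G) (_ : DecidableEq G)
    (Z : Finset G), 1 ∉ Z ∧ Z.Nonempty ∧ (L : ℝ) ≤ tmix (srw Z) (1 / 4) * (1 - lam2 (srw Z)) ∧
      3 / 2 ≤ (tmix (srw Z) (1 / 4) : ℝ) / tmix (srw Z) (1 - 1 / 4) ∧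
      ∃ t, ∀ x y, 0 < (srw Z ^ t) x y := by
  obtain ⟨Γ, i1, i2, i3, S, h⟩ := pack L (12 * L) hL
  have key : ∀ M : Matrix Γ Γ ℝ, M = W 0 S → (L : ℝ) ≤ tmix M (1 / 4) * (1 - lam2 M) ∧
      3 / 2 ≤ (tmix M (1 / 4) : ℝ) / tmix M (1 - 1 / 4) ∧ ∃ t, ∀ x y, 0 < (M ^ t) x y := by
    rintro _ rfl; exact h.simple hL
  exact ⟨Multiplicative Γ, inferInstance, i2, i3, S, h.zero, h.ne, key _ (srw_eq h)⟩

theorem result : ∃ (G : ℕ → Type) (_ : ∀ n, Group (G n)) (_ : ∀ n, Fintype (G n))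
    (_ : ∀ n, DecidableEq (G n)) (Z : ∀ n, Finset (G n)),
    (∀ n, Group.IsNilpotent (G n) ∧ Group.nilpotencyClass (G n) ≤ 1 ∧ 1 ∉ Z n ∧ (Z n).Nonempty ∧
      ∃ t, ∀ x y, 0 < (srw (Z n) ^ t) x y) ∧
    Tendsto (fun n => (tmix (srw (Z n)) (1 / 4) : ℝ) * (1 - lam2 (srw (Z n)))) atTop atTop ∧
    ¬ ∀ ε ∈ Set.Ioo (0 : ℝ) 1, Tendsto (fun n =>
      (tmix (srw (Z n)) ε : ℝ) / tmix (srw (Z n)) (1 - ε)) atTop (𝓝 1) := by
  choose G i1 i2 i3 S h using fun n => one (n + 2) (by omega)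
  exact ⟨G, inferInstance, i2, i3, S, fun n => ⟨inferInstance,
    CommGroup.nilpotencyClass_le_one, (h n).1, (h n).2.1, (h n).2.2.2.2⟩,
    to_top fun n => (h n).2.2.1, fun hc => not_one (fun n => (h n).2.2.2.1) (hc (1 / 4) (by norm_num))⟩

end Pool.Agent.Results.MP_7f396f_pr.NoCutoff
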